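import Pool.Agent.H38.ET8.W247.ET.Stm

/-!
# Project ET, part CUT: the truncated set
-/

set_option autoImplicit false

open Finset

namespace Pool.Agent.W962.ET

open Pool.Agent.W247.ET

open Classical in
/-- the representations as a finite set -/
noncomputable def rf (A : Set ℕ) (n : ℕ) : Finset (ℕ × ℕ) :=
  (antidiagonal n).filter (fun p => p.1 ∈ A ∧ p.2 ∈ A)

theorem r_eq (A : Set ℕ) (n : ℕ) : r A n = (rf A n).card := by
  classical
  have h : {p : ℕ × ℕ | p.1 ∈ A ∧ p.2 ∈ A ∧ p.1 + p.2 = n} = (rf A n : Set (ℕ × ℕ)) := by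
    ext p
    unfold rf
    simp only [Set.mem_ofPred_eq, coe_filter, HasAntidiagonal.mem_antidiagonal]
    tauto
  unfold r
  rw [h, Set.ncard_coe_finset]

theorem mem_cut {A : Set ℕ} {N a : ℕ} : a ∈ cut A N ↔ (1 ≤ a ∧ a ≤ N) ∧ a ∈ A := by
  classical
  unfold cut
  rw [mem_filter, mem_Icc]

/-- the pairs counted by `rep` -/
def rs (B : Finset ℕ) (n : ℕ) : Finset (ℕ × ℕ) := (B ×ˢ B).filter (fun p => p.1 + p.2 = n)

theorem rep_eq (B : Finset ℕ) (n : ℕ) : rep B n = (rs B n).card := rfl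

theorem mem_rs {B : Finset ℕ} {n : ℕ} {p : ℕ × ℕ} :
    p ∈ rs B n ↔ (p.1 ∈ B ∧ p.2 ∈ B) ∧ p.1 + p.2 = n := by
  unfold rs
  rw [mem_filter, mem_product]

theorem rs_sub (A : Set ℕ) (N n : ℕ) : rs (cut A N) n ⊆ rf A n := by
  classical
  intro p hp
  obtain ⟨⟨h1, h2⟩, h3⟩ := mem_rs.mp hp
  unfold rf
  rw [mem_filter, HasAntidiagonal.mem_antidiagonal]
  exact ⟨h3, (mem_cut.mp h1).2, (mem_cut.mp h2).2⟩

theorem rep_le (A : Set ℕ) (N n : ℕ) : rep (cut A N) n ≤ r A n := by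
  rw [r_eq, rep_eq]
  exact card_le_card (rs_sub A N n)

theorem rep_eq_r (A : Set ℕ) (N n : ℕ) (hnN : n ≤ N) (hnA : n ∉ A) :
    rep (cut A N) n = r A n := by
  classical
  rw [r_eq, rep_eq]
  congr 1
  refine (rs_sub A N n).antisymm fun p hp => ?_
  unfold rf at hp
  rw [mem_filter, HasAntidiagonal.mem_antidiagonal] at hp
  obtain ⟨h1, h2, h3⟩ := hp
  refine mem_rs.mpr ⟨⟨mem_cut.mpr ⟨⟨?_, by omega⟩, h2⟩, mem_cut.mpr ⟨⟨?_, by omega⟩, h3⟩⟩, h1⟩
  · by_contra h
    have h4 : p.2 = n := by omega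
    rw [h4] at h3
    exact hnA h3
  · by_contra h
    have h4 : p.1 = n := by omega
    rw [h4] at h2
    exact hnA h2

theorem rep_even (B : Finset ℕ) (n : ℕ) (h : ∀ a ∈ B, n ≠ 2 * a) : Even (rep B n) := by
  rw [rep_eq, ← ZMod.natCast_eq_zero_iff_even, card_eq_sum_ones, Nat.cast_sum, Nat.cast_one]
  refine Finset.sum_involution (fun p _ => p.swap) ?_ ?_ ?_ ?_
  · intro p _
    decide
  · intro p hp _ he
    obtain ⟨⟨h1, h2⟩, h3⟩ := mem_rs.mp hp
    have h4 : p.2 = p.1 := congrArg Prod.fst he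
    exact h p.1 h1 (by omega)
  · intro p hp
    obtain ⟨⟨h1, h2⟩, h3⟩ := mem_rs.mp hp
    refine mem_rs.mpr ⟨⟨h2, h1⟩, ?_⟩
    show p.2 + p.1 = n
    omega
  · intro p _
    exact Prod.swap_swap p

theorem main (hS : SPA_stmt) : CUT_stmt := by
  classical
  intro K
  obtain ⟨C1, hC1⟩ := hS K
  have hC0 : 0 ≤ C1 := by
    have := hC1 ∅ (notMem_empty _) (fun n => by simp [rep])
    simpa using this
  set Q : ℝ := (K : ℝ) ^ 2 + 12 with hQ
  have hQ1 : 1 ≤ Q := by rw [hQ]; nlinarith [sq_nonneg (K : ℝ)]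
  refine ⟨Q * (2 * C1 + 2), fun A hA N => ?_⟩
  set B := cut A N with hB
  set E : Finset ℕ := (Icc 1 N).filter (fun n => r A n = 0 ∨ 8 ≤ r A n) with hE
  set I2 : Finset ℕ := B.image (fun a => 2 * a) with hI2
  have hK : ∀ n, rep B n ≤ K := fun n => (rep_le A N n).trans (hA n)
  have h0 : 0 ∉ B := fun h => by
    have := (mem_cut.mp h).1.1
    omega
  have hSB : ∑ a ∈ B, 1 / (a : ℝ) ≤ C1 := hC1 B h0 hK
  have hE0 : 0 ≤ ∑ n ∈ E, 1 / (n : ℝ) := sum_nonneg fun _ _ => by positivity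
  refine ⟨hK, ?_, ?_⟩
  · -- the four exceptional sets
    set g1 : ℕ → ℝ := fun n => if n ∈ B then 1 / (n : ℝ) else 0 with hg1
    set g2 : ℕ → ℝ := fun n => if n ∈ I2 then 1 / (n : ℝ) else 0 with hg2
    set g3 : ℕ → ℝ := fun n => if n ∈ E then 1 / (n : ℝ) else 0 with hg3
    set g4 : ℕ → ℝ := fun n => if n ∈ Ioc N (2 * N) then 1 / (n : ℝ) else 0 with hg4
    have n1 : ∀ n, 0 ≤ g1 n := fun n => by simp only [hg1]; split_ifs <;> positivity
    have n2 : ∀ n, 0 ≤ g2 n := fun n => by simp only [hg2]; split_ifs <;> positivity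
    have n3 : ∀ n, 0 ≤ g3 n := fun n => by simp only [hg3]; split_ifs <;> positivity
    have n4 : ∀ n, 0 ≤ g4 n := fun n => by simp only [hg4]; split_ifs <;> positivity
    have key : ∀ n ∈ Icc 1 (2 * N), ((rep B n : ℝ) ^ 2 - (8 * rep B n - 12)) / n ≤
        Q * (g1 n + g2 n + g3 n + g4 n) := by
      intro n hn
      obtain ⟨hn1, hn2⟩ := mem_Icc.mp hn
      have hn0 : (0 : ℝ) < n := by exact_mod_cast hn1
      have m1 := n1 n
      have m2 := n2 n
      have m3 := n3 n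
      have m4 := n4 n
      have hbd : ((rep B n : ℝ) ^ 2 - (8 * rep B n - 12)) / n ≤ Q * (1 / n) := by
        rw [mul_one_div]
        refine div_le_div_of_nonneg_right ?_ hn0.le
        have h1 : (rep B n : ℝ) ≤ K := by exact_mod_cast hK n
        have h2 : (0 : ℝ) ≤ rep B n := by positivity
        rw [hQ]
        nlinarith
      by_cases c1 : n ∈ B
      · have : g1 n = 1 / (n : ℝ) := if_pos c1
        refine hbd.trans ?_
        gcongr
        linarith
      by_cases c2 : n ∈ I2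
      · have : g2 n = 1 / (n : ℝ) := if_pos c2
        refine hbd.trans ?_
        gcongr
        linarith
      by_cases c3 : n ∈ E
      · have : g3 n = 1 / (n : ℝ) := if_pos c3
        refine hbd.trans ?_
        gcongr
        linarith
      by_cases c4 : n ∈ Ioc N (2 * N)
      · have : g4 n = 1 / (n : ℝ) := if_pos c4
        refine hbd.trans ?_
        gcongr
        linarith
      · have hnN : n ≤ N := by
          by_contra h
          exact c4 (mem_Ioc.mpr ⟨by omega, hn2⟩)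
        have hnA : n ∉ A := fun h => c1 (mem_cut.mpr ⟨⟨hn1, hnN⟩, h⟩)
        have hr := rep_eq_r A N n hnN hnA
        have hev : Even (rep B n) := rep_even B n fun a ha he =>
          c2 (mem_image.mpr ⟨a, ha, he.symm⟩)
        have hne : ¬ (r A n = 0 ∨ 8 ≤ r A n) := fun h =>
          c3 (mem_filter.mpr ⟨mem_Icc.mpr ⟨hn1, hnN⟩, h⟩)
        push Not at hne
        rw [← hr] at hne
        obtain ⟨t, ht⟩ := hev
        have h1 : 2 ≤ rep B n ∧ rep B n ≤ 6 := by
          obtain ⟨k1, k2⟩ := hne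
          rw [← hB] at k1 k2
          omega
        have h2 : (2 : ℝ) ≤ rep B n := by exact_mod_cast h1.1
        have h3 : (rep B n : ℝ) ≤ 6 := by exact_mod_cast h1.2
        have h4 : ((rep B n : ℝ) ^ 2 - (8 * rep B n - 12)) / n ≤ 0 := by
          refine div_nonpos_of_nonpos_of_nonneg ?_ hn0.le
          nlinarith
        refine h4.trans ?_
        positivity
    refine (sum_le_sum key).trans ?_
    rw [← mul_sum, sum_add_distrib, sum_add_distrib, sum_add_distrib]
    have s1 : ∑ n ∈ Icc 1 (2 * N), g1 n ≤ C1 := by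
      refine le_trans ?_ hSB
      simp only [hg1]
      rw [← sum_filter]
      refine sum_le_sum_of_subset_of_nonneg (fun n hn => (mem_filter.mp hn).2) fun _ _ _ => ?_
      positivity
    have s2 : ∑ n ∈ Icc 1 (2 * N), g2 n ≤ C1 := by
      refine le_trans ?_ hSB
      simp only [hg2]
      rw [← sum_filter]
      calc ∑ n ∈ (Icc 1 (2 * N)).filter (fun n => n ∈ I2), 1 / (n : ℝ)
          ≤ ∑ n ∈ I2, 1 / (n : ℝ) :=
            sum_le_sum_of_subset_of_nonneg (fun n hn => (mem_filter.mp hn).2)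
              fun _ _ _ => by positivity
        _ = ∑ a ∈ B, 1 / ((2 * a : ℕ) : ℝ) :=
            by
            rw [hI2]
            exact sum_image fun a _ b _ h => by simpa using h
        _ ≤ ∑ a ∈ B, 1 / (a : ℝ) := by
            refine sum_le_sum fun a ha => ?_
            have h1 := (mem_cut.mp ha).1.1
            have h2 : (0 : ℝ) < a := by exact_mod_cast h1
            apply one_div_le_one_div_of_le h2
            push_cast
            linarith
    have s3 : ∑ n ∈ Icc 1 (2 * N), g3 n ≤ ∑ n ∈ E, 1 / (n : ℝ) := by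
      simp only [hg3]
      rw [← sum_filter]
      refine sum_le_sum_of_subset_of_nonneg (fun n hn => (mem_filter.mp hn).2) fun _ _ _ => ?_
      positivity
    have s4 : ∑ n ∈ Icc 1 (2 * N), g4 n ≤ 1 := by
      simp only [hg4]
      rw [← sum_filter]
      rcases Nat.eq_zero_or_pos N with hN | hN
      · subst hN
        simp
      have hN0 : (0 : ℝ) < N := by exact_mod_cast hN
      calc ∑ n ∈ (Icc 1 (2 * N)).filter (fun n => n ∈ Ioc N (2 * N)), 1 / (n : ℝ)
          ≤ ∑ n ∈ Ioc N (2 * N), 1 / (n : ℝ) :=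
            sum_le_sum_of_subset_of_nonneg (fun n hn => (mem_filter.mp hn).2)
              fun _ _ _ => by positivity
        _ ≤ ∑ _n ∈ Ioc N (2 * N), 1 / (N : ℝ) := by
            refine sum_le_sum fun n hn => ?_
            have h1 : (N : ℝ) ≤ n := by exact_mod_cast (mem_Ioc.mp hn).1.le
            exact one_div_le_one_div_of_le hN0 h1
        _ = 1 := by
            rw [sum_const, Nat.card_Ioc, nsmul_eq_mul]
            have : 2 * N - N = N := by omega
            rw [this, mul_one_div_cancel hN0.ne']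
    have hT : ∑ n ∈ Icc 1 (2 * N), g1 n + ∑ n ∈ Icc 1 (2 * N), g2 n +
        ∑ n ∈ Icc 1 (2 * N), g3 n + ∑ n ∈ Icc 1 (2 * N), g4 n ≤
        (2 * C1 + 1) + ∑ n ∈ E, 1 / (n : ℝ) := by linarith
    calc Q * (∑ n ∈ Icc 1 (2 * N), g1 n + ∑ n ∈ Icc 1 (2 * N), g2 n +
          ∑ n ∈ Icc 1 (2 * N), g3 n + ∑ n ∈ Icc 1 (2 * N), g4 n)
        ≤ Q * ((2 * C1 + 1) + ∑ n ∈ E, 1 / (n : ℝ)) := by gcongr
      _ ≤ Q * (2 * C1 + 2) * ∑ n ∈ E, 1 / (n : ℝ) + Q * (2 * C1 + 2) := by
          have h1 : 0 ≤ Q * (2 * C1 + 1) * ∑ n ∈ E, 1 / (n : ℝ) := by positivity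
          nlinarith
  · have h1 : ∑ n ∈ (Icc 1 N).filter (fun n => rep B n = 0), 1 / (n : ℝ) ≤
        ∑ n ∈ E ∪ B, 1 / (n : ℝ) := by
      refine sum_le_sum_of_subset_of_nonneg (fun n hn => ?_) fun _ _ _ => by positivity
      obtain ⟨h2, h3⟩ := mem_filter.mp hn
      obtain ⟨hn1, hnN⟩ := mem_Icc.mp h2
      by_cases hnA : n ∈ A
      · exact mem_union_right _ (mem_cut.mpr ⟨⟨hn1, hnN⟩, hnA⟩)
      · refine mem_union_left _ (mem_filter.mpr ⟨h2, Or.inl ?_⟩)
        rw [← rep_eq_r A N n hnN hnA]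
        exact h3
    have h2 : ∑ n ∈ E ∪ B, 1 / (n : ℝ) ≤ ∑ n ∈ E, 1 / (n : ℝ) + ∑ n ∈ B, 1 / (n : ℝ) := by
      rw [← sum_union_inter]
      have : 0 ≤ ∑ n ∈ E ∩ B, 1 / (n : ℝ) := sum_nonneg fun _ _ => by positivity
      linarith
    have h3 : C1 ≤ Q * (2 * C1 + 2) := by nlinarith
    linarith

end Pool.Agent.W962.ET
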